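import Mathlib
import Pool.Agent.H15.Univ.M7b

/-!
MP_e7e7e6_co: random permutations of length `(1+ε) k²` are `k`-universal with probability
tending to one.
-/

set_option autoImplicit false
open Classical

namespace Pool.Agent.Results.MP_e7e7e6_co.QuadraticUniversal

theorem card_filter_le_imp {α : Type*} (s : Finset α) (P Q : α → Prop) {dP : DecidablePred P}
    {dQ : DecidablePred Q} (h : ∀ x ∈ s, P x → Q x) :
    (s.filter P).card ≤ (s.filter Q).card := by
  apply Finset.card_le_card
  intro x hx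
  rw [Finset.mem_filter] at hx ⊢
  exact ⟨hx.1, h x hx.1 hx.2⟩

/-- For every `ε > 0` a uniformly random permutation of length `n ≥ (1+ε) k²` contains every
permutation of length `k` as a pattern with probability tending to `1` as `k → ∞`. -/
theorem result :
    ∀ ε : ℝ, 0 < ε → ∀ δ : ℝ, 0 < δ → ∃ K : ℕ, ∀ k : ℕ, K ≤ k → ∀ n : ℕ,
      (1 + ε) * (k : ℝ) ^ 2 ≤ (n : ℝ) →
      (1 - δ) * ((Nat.factorial n : ℕ) : ℝ) ≤
        (((Finset.univ : Finset (Equiv.Perm (Fin n))).filter
          (fun σ : Equiv.Perm (Fin n) =>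
            ∀ π : Equiv.Perm (Fin k), ∃ f : Fin k ↪o Fin n,
              ∀ i j : Fin k, (π i < π j ↔ σ (f i) < σ (f j)))).card : ℝ) := by
  intro ε hε δ hδ
  obtain ⟨K, hK⟩ := Pool.H15.Univ.main ε hε δ hδ
  refine ⟨K, fun k hk n hn => (hK k hk n hn).trans (Nat.cast_le.mpr ?_)⟩
  exact card_filter_le_imp _ _ _ (fun σ _ h => h)

end Pool.Agent.Results.MP_e7e7e6_co.QuadraticUniversal
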